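import Pool.Agent.Zk99.HC.Final

set_option autoImplicit false

/-!
# MP_eba1ef_gt: unconditional bodies with a box as coordinate section of codimension two

Let `L ⊆ ℝ^n` be an unconditional convex body, i.e. symmetric about the coordinate hyperplanes, and
suppose that the section of `L` with some coordinate subspace of codimension two is a box. We prove
`c(L) ≤ 2^n`, for all `n`. For `n = 2, 3` the hypothesis holds for all unconditional bodies. Sun and
Vritsiou (Illuminating 1-unconditional convex bodies in `ℝ^3` and `ℝ^4`, and certain cases in higher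
dimensions) proved this if a section of codimension one is a box.

More precisely we prove a uniform version: there is `ε > 0`, depending only on `n`, such that
`c(K) ≤ 2^n` for all convex bodies `K` with `L ⊆ g(K) ⊆ (1 + ε) L` for some such `L` and some
affine automorphism `g` of `ℝ^n`; here `K` need not have any symmetries. The case `K = L`,
`g = id` is the theorem above.

Proof of `c(L) ≤ 2^n`: let `p, q` be the two coordinates and `B` the set of the others, and
normalise `L` such that the maximum of each coordinate is `1`. The directions are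
`(σ_i a_i(σ))_i`, one for each sign vector `σ`, where `a_b(σ) = 1` for `b ∈ B` and the pair
`(a_p(σ), a_q(σ))` depends on whether `σ_p` and `σ_q` are equal to the parity `∏_(b ∈ B) σ_b`. It
is one of the pairs `(8, 8)`, `(8, 1 - η)`, `(1 - η, 8)` and a pair of small numbers (`(1/4, 1/4)`,
or `(5/16, 1/4)` if the section with the coordinates `p, q` is a diamond). A direction illuminates
the boundary point `x` if it has positive products with the normals at `x`; the signs at the
coordinates `b` with `|x_b| ≤ 1/2` can be changed, as the vertices of the box are in `L`. If this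
fails, then a compactness argument yields numbers `λ_b ≥ 0` with the sum `1` and
`∑ λ_b |y_b| + |y_q| ≤ 1` for all `y ∈ L`, or the same for `p`; if such numbers exist, a
different dependence of the weights on `σ` works, or, if `λ` is a unit vector, a slightly smaller
weight at one coordinate of `B`. The uniform version follows by compactness.
-/

namespace Pool.Agent.Results.MP_eba1ef_gt.BoxSectionCodimTwo

open Pointwise

/-- `Covered N K` means that `K` is covered by at most `N` translates of its interior, i.e.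
`c(K) ≤ N`. -/
def Covered {V : Type*} [TopologicalSpace V] [Add V] (N : ℕ) (K : Set V) : Prop :=
  ∃ T : Finset V, T.card ≤ N ∧ K ⊆ ⋃ t ∈ T, (fun x => t + x) '' interior K

/-- `L` is symmetric about the coordinate hyperplanes. -/
def Unconditional {n : ℕ} (L : Set (EuclideanSpace ℝ (Fin n))) : Prop :=
  ∀ x ∈ L, ∀ y : EuclideanSpace ℝ (Fin n), (∀ i, |y i| = |x i|) → y ∈ L

/-- For some two coordinates `p ≠ q` the section of `L` with the subspace `x_p = x_q = 0` is a box
`{x | x_p = x_q = 0, |x_b| ≤ M_b for all b ≠ p, q}`. -/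
def BoxSection {n : ℕ} (L : Set (EuclideanSpace ℝ (Fin n))) : Prop :=
  ∃ p q : Fin n, p ≠ q ∧ ∃ M : Fin n → ℝ,
    L ∩ {x | x p = 0 ∧ x q = 0} = {x | x p = 0 ∧ x q = 0 ∧ ∀ b, b ≠ p → b ≠ q → |x b| ≤ M b}

lemma unc_le {n : ℕ} {L : Set (EuclideanSpace ℝ (Fin n))} (hL : Convex ℝ L)
    (hu : Unconditional L) : ∀ x ∈ L, ∀ y : EuclideanSpace ℝ (Fin n), (∀ i, |y i| ≤ |x i|) →
      y ∈ L := by
  intro x hx y hy
  have h1 : Convex ℝ (Pool.Agent.Zk99.HB.fset L) :=
    hL.linear_preimage (EuclideanSpace.equiv (Fin n) ℝ).symm.toLinearMap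
  exact Pool.Agent.N148.HD.unc_le h1 (fun x hx y hy => hu _ hx _ hy) (WithLp.ofLp x) hx
    (WithLp.ofLp y) hy

/-- **Theorem.** For every `n` there is `ε > 0` such that the following holds. Let `L ⊆ ℝ^n` be an
unconditional convex body whose section with some coordinate subspace of codimension two is a box.
If `K` is a set (for example a convex body) and `L ⊆ g(K) ⊆ (1 + ε) L` for some affine
automorphism `g` of `ℝ^n`, then `c(K) ≤ 2^n`. In particular `c(L) ≤ 2^n`. -/
theorem result (n : ℕ) : ∃ ε : ℝ, 0 < ε ∧
    ∀ L : Set (EuclideanSpace ℝ (Fin n)), Convex ℝ L → IsCompact L → (interior L).Nonempty →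
      Unconditional L → BoxSection L →
      ∀ K : Set (EuclideanSpace ℝ (Fin n)),
        (∃ g : EuclideanSpace ℝ (Fin n) ≃ᵃ[ℝ] EuclideanSpace ℝ (Fin n),
          L ⊆ g '' K ∧ g '' K ⊆ (1 + ε) • L) →
        Covered (2 ^ n) K := by
  obtain ⟨ε, hε, h⟩ := Pool.Agent.Zk99.HC.main_eucl n
  refine ⟨ε, hε, fun L hL hLc hLi hu hbox => h L hL hLc hLi hu ?_⟩
  obtain ⟨p, q, hpq, M, hM⟩ := hbox
  obtain ⟨z, hz⟩ := hLi
  have h0 : (0 : EuclideanSpace ℝ (Fin n)) ∈ L :=
    unc_le hL hu z (interior_subset hz) 0 fun i => by simp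
  have hM0 : ∀ b, b ≠ p → b ≠ q → 0 ≤ M b := by
    have h1 : (0 : EuclideanSpace ℝ (Fin n)) ∈ L ∩ {x | x p = 0 ∧ x q = 0} :=
      ⟨h0, by simp, by simp⟩
    rw [hM] at h1
    intro b hb1 hb2
    have := h1.2.2 b hb1 hb2
    simpa using this
  set y : EuclideanSpace ℝ (Fin n) :=
    WithLp.toLp 2 fun i => if i = p ∨ i = q then 0 else M i with hy
  have hyp : y p = 0 := by simp [hy]
  have hyq : y q = 0 := by simp [hy]
  have hyb : ∀ b, b ≠ p → b ≠ q → y b = M b := by
    intro b hb1 hb2
    simp [hy, hb1, hb2]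
  refine ⟨p, q, hpq, y, ?_, fun b hb1 hb2 x hx => ?_⟩
  · have h1 : y ∈ L ∩ {x | x p = 0 ∧ x q = 0} := by
      rw [hM]
      refine ⟨hyp, hyq, fun b hb1 hb2 => ?_⟩
      rw [hyb b hb1 hb2, abs_of_nonneg (hM0 b hb1 hb2)]
    exact h1.1
  · set x' : EuclideanSpace ℝ (Fin n) :=
      WithLp.toLp 2 fun i => if i = p ∨ i = q then 0 else x i with hx'
    have hxp : x' p = 0 := by simp [hx']
    have hxq : x' q = 0 := by simp [hx']
    have hxb : ∀ b, b ≠ p → b ≠ q → x' b = x b := by
      intro b hb1 hb2
      simp [hx', hb1, hb2]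
    have h1 : x' ∈ L ∩ {x | x p = 0 ∧ x q = 0} := by
      refine ⟨unc_le hL hu x hx x' fun i => ?_, hxp, hxq⟩
      by_cases hip : i = p
      · rw [hip, hxp, abs_zero]
        exact abs_nonneg _
      by_cases hiq : i = q
      · rw [hiq, hxq, abs_zero]
        exact abs_nonneg _
      · rw [hxb i hip hiq]
    rw [hM] at h1
    rw [hyb b hb1 hb2, ← hxb b hb1 hb2]
    exact (le_abs_self _).trans (h1.2.2 b hb1 hb2)

end Pool.Agent.Results.MP_eba1ef_gt.BoxSectionCodimTwo
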